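import Mathlib

/-!
# The maximal height of the divisors of `x ^ (2 q ^ b) - 1` is two

Every divisor of `x ^ (2 q ^ b) - 1` in `ℤ[x]` is, up to sign, `(x - 1) ^ ε (x + 1) ^ δ F (x)` with
`ε, δ ∈ {0, 1}` and `F = ∏_i h_i (x ^ (q ^ i))`, where each `h_i (y)` is one of `1`,
`1 + y + ⋯ + y ^ (q - 1)`, `1 - y + ⋯ + y ^ (q - 1)` and `1 + y ^ 2 + ⋯ + y ^ (2 q - 2)`.
All coefficients of `F` lie in `{-1, 0, 1}`; this is an induction on the number of factors.
-/

open Polynomial Finset

namespace Pool.Agent.Results.MP_0523aa_nt.HeightTwo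

/-- The height of an integer polynomial: the largest absolute value of a coefficient. -/
def height (f : ℤ[X]) : ℕ := f.support.sup fun k => (f.coeff k).natAbs

/-- all coefficients lie in `{-1, 0, 1}` -/
def Small (f : ℤ[X]) : Prop := ∀ n, |f.coeff n| ≤ 1

/-- all coefficients are at most two in absolute value -/
def Small2 (f : ℤ[X]) : Prop := ∀ n, |f.coeff n| ≤ 2

/-- `1 + y + ⋯ + y ^ (q - 1)` -/
noncomputable def S (q : ℕ) : ℤ[X] := ∑ j ∈ range q, X ^ j

/-- `1 - y + ⋯ + y ^ (q - 1)` -/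
noncomputable def Sm (q : ℕ) : ℤ[X] := ∑ j ∈ range q, (-X) ^ j

theorem coeff_S (q n : ℕ) : (S q).coeff n = if n < q then 1 else 0 := by
  unfold S
  simp [coeff_X_pow]

theorem coeff_Sm (q n : ℕ) : (Sm q).coeff n = if n < q then (-1) ^ n else 0 := by
  unfold Sm
  have h : ∀ j : ℕ, ((-X : ℤ[X]) ^ j).coeff n = if n = j then (-1) ^ n else 0 := by
    intro j
    rw [neg_pow, ← C_1, ← C_neg, ← C_pow, coeff_C_mul, coeff_X_pow]
    split_ifs with h
    · rw [h]; simp
    · simp
  simp [h]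

theorem coeff_mul_expand {q : ℕ} (hq : 0 < q) (P G : ℤ[X]) (hP : ∀ n, q ≤ n → P.coeff n = 0)
    (n : ℕ) : (P * expand ℤ q G).coeff n = P.coeff (n % q) * G.coeff (n / q) := by
  rw [coeff_mul, Finset.sum_eq_single (n % q, q * (n / q))]
  · rw [coeff_expand_mul' hq]
  · rintro ⟨i, j⟩ hij hne
    rw [Finset.HasAntidiagonal.mem_antidiagonal] at hij
    by_cases hi : i < q
    · rw [coeff_expand hq]
      split_ifs with hd
      · exfalso
        apply hne
        obtain ⟨k, rfl⟩ := hd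
        have h1 : n % q = i := by
          rw [← hij]; simp [Nat.mod_eq_of_lt hi]
        have h2 : n / q = k := by
          rw [← hij, Nat.add_mul_div_left _ _ hq, Nat.div_eq_of_lt hi, zero_add]
        rw [h1, h2]
      · simp
    · rw [hP i (by omega), zero_mul]
  · intro h
    exact absurd (Finset.HasAntidiagonal.mem_antidiagonal.2 (Nat.mod_add_div n q)) h

theorem small_mul_expand {q : ℕ} (hq : 0 < q) {P G : ℤ[X]} (hP : ∀ n, q ≤ n → P.coeff n = 0)
    (hPs : Small P) (hG : Small G) : Small (P * expand ℤ q G) := by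
  intro n
  rw [coeff_mul_expand hq P G hP, abs_mul]
  have h1 := hPs (n % q)
  have h2 := hG (n / q)
  have h3 := abs_nonneg (P.coeff (n % q))
  have h4 := abs_nonneg (G.coeff (n / q))
  nlinarith

/-- the even part -/
noncomputable def E (k : ℕ) : ℤ[X] := ∑ j ∈ range (k + 1), (X ^ 2) ^ j

/-- the odd part -/
noncomputable def O (k : ℕ) : ℤ[X] := X * ∑ j ∈ range k, (X ^ 2) ^ j

theorem coeff_geom2 (k n : ℕ) : (∑ j ∈ range k, ((X : ℤ[X]) ^ 2) ^ j).coeff n =
    if n % 2 = 0 ∧ n < 2 * k then 1 else 0 := by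
  have h : ∀ j : ℕ, (((X : ℤ[X]) ^ 2) ^ j).coeff n = if n = 2 * j then 1 else 0 := by
    intro j
    rw [← pow_mul, coeff_X_pow]
  rw [finsetSum_coeff, Finset.sum_congr rfl fun j _ => h j]
  split_ifs with hn
  · rw [Finset.sum_eq_single (n / 2)]
    · rw [if_pos (by omega)]
    · intro j _ hj
      rw [if_neg (by omega)]
    · intro h'
      exact absurd (Finset.mem_range.2 (by omega)) h'
  · apply Finset.sum_eq_zero
    intro j hj
    rw [Finset.mem_range] at hj
    rw [if_neg (by omega)]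

theorem coeff_E (k n : ℕ) : (E k).coeff n = if n % 2 = 0 ∧ n < 2 * k + 2 then 1 else 0 := by
  unfold E
  rw [coeff_geom2]
  congr 1

theorem coeff_O (k n : ℕ) : (O k).coeff n = if n % 2 = 1 ∧ n < 2 * k + 1 then 1 else 0 := by
  unfold O
  cases n with
  | zero => simp
  | succ n =>
    rw [coeff_X_mul, coeff_geom2]
    apply if_congr _ rfl rfl
    omega

theorem S_mul_Sm (k : ℕ) : S (2 * k + 1) * Sm (2 * k + 1) =
    E k + X ^ (2 * k + 1) * O k := by
  have h0 : ((X : ℤ[X]) ^ 2 - 1) ≠ 0 := by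
    intro h
    have := congrArg (fun p => Polynomial.coeff p 2) h
    simp [coeff_X_pow, coeff_one] at this
  have h1 : S (2 * k + 1) * (X - 1) = X ^ (2 * k + 1) - 1 := by
    unfold S; exact geom_sum_mul _ _
  have h2 : Sm (2 * k + 1) * (X + 1) = X ^ (2 * k + 1) + 1 := by
    have : Sm (2 * k + 1) * (-X - 1) = (-X) ^ (2 * k + 1) - 1 := by
      unfold Sm; exact geom_sum_mul _ _
    have h3 : (-X : ℤ[X]) ^ (2 * k + 1) = - X ^ (2 * k + 1) := Odd.neg_pow ⟨k, rfl⟩ _
    rw [h3] at this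
    linear_combination -this
  have h3 : E k * (X ^ 2 - 1) = X ^ (2 * k + 2) - 1 := by
    unfold E
    rw [geom_sum_mul, ← pow_mul]
    ring_nf
  have h4 : O k * (X ^ 2 - 1) = X ^ (2 * k + 1) - X := by
    unfold O
    rw [mul_assoc, geom_sum_mul, ← pow_mul]
    ring
  apply mul_right_cancel₀ h0
  have e1 : S (2 * k + 1) * Sm (2 * k + 1) * (X ^ 2 - 1) =
      (S (2 * k + 1) * (X - 1)) * (Sm (2 * k + 1) * (X + 1)) := by ring
  have e2 : (E k + X ^ (2 * k + 1) * O k) * (X ^ 2 - 1) =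
      E k * (X ^ 2 - 1) + X ^ (2 * k + 1) * (O k * (X ^ 2 - 1)) := by ring
  rw [e1, e2, h1, h2, h3, h4]
  ring

theorem small_both (k : ℕ) {G : ℤ[X]} (hG : Small G) :
    Small (S (2 * k + 1) * Sm (2 * k + 1) * expand ℤ (2 * k + 1) G) := by
  have hq : 0 < 2 * k + 1 := by omega
  have e : S (2 * k + 1) * Sm (2 * k + 1) * expand ℤ (2 * k + 1) G =
      E k * expand ℤ (2 * k + 1) G + O k * expand ℤ (2 * k + 1) (X * G) := by
    rw [S_mul_Sm, map_mul, expand_X]; ring
  intro n
  rw [e, coeff_add, coeff_mul_expand hq, coeff_mul_expand hq, coeff_E, coeff_O]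
  · have hr : n % (2 * k + 1) < 2 * k + 1 := Nat.mod_lt _ hq
    rcases Nat.mod_two_eq_zero_or_one (n % (2 * k + 1)) with h | h
    · rw [if_pos ⟨h, by omega⟩, if_neg (by omega)]
      simpa using hG _
    · rw [if_neg (by omega), if_pos ⟨h, by omega⟩]
      rw [zero_mul, zero_add, one_mul]
      rcases n / (2 * k + 1) with _ | m
      · simp
      · rw [coeff_X_mul]; exact hG m
  · intro m hm
    rw [coeff_O, if_neg (by omega)]
  · intro m hm
    rw [coeff_E, if_neg (by omega)]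

/-- the four local factors -/
def Typ (q : ℕ) (h : ℤ[X]) : Prop := h = 1 ∨ h = S q ∨ h = Sm q ∨ h = S q * Sm q

theorem small_one : Small 1 := by
  intro n
  rw [coeff_one]
  split_ifs <;> simp

theorem small_step (k : ℕ) {h G : ℤ[X]} (hh : Typ (2 * k + 1) h) (hG : Small G) :
    Small (h * expand ℤ (2 * k + 1) G) := by
  have hq : 0 < 2 * k + 1 := by omega
  rcases hh with rfl | rfl | rfl | rfl
  · apply small_mul_expand hq _ small_one hG
    intro n hn
    rw [coeff_one, if_neg (by omega)]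
  · apply small_mul_expand hq _ _ hG
    · intro n hn
      rw [coeff_S, if_neg (by omega)]
    · intro n
      rw [coeff_S]
      split_ifs <;> simp
  · apply small_mul_expand hq _ _ hG
    · intro n hn
      rw [coeff_Sm, if_neg (by omega)]
    · intro n
      rw [coeff_Sm]
      split_ifs <;> simp
  · exact small_both k hG

/-- The product `∏_{i < b} h_i (x ^ (q ^ i))`. -/
noncomputable def F (q : ℕ) (b : ℕ) (h : ℕ → ℤ[X]) : ℤ[X] := ∏ i ∈ range b, expand ℤ (q ^ i) (h i)

theorem small_F (k : ℕ) : ∀ (b : ℕ) (h : ℕ → ℤ[X]), (∀ i, Typ (2 * k + 1) (h i)) →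
    Small (F (2 * k + 1) b h) := by
  intro b
  induction b with
  | zero => intro h _; unfold F; simpa using small_one
  | succ b ih =>
    intro h hh
    have e : F (2 * k + 1) (b + 1) h =
        h 0 * expand ℤ (2 * k + 1) (F (2 * k + 1) b fun i => h (i + 1)) := by
      unfold F
      rw [Finset.prod_range_succ', map_prod, pow_zero, expand_one, mul_comm]
      congr 1
      apply Finset.prod_congr rfl
      intro i _
      rw [expand_expand, ← pow_succ']
    rw [e]
    exact small_step k (hh 0) (ih _ fun i => hh (i + 1))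

/-! ### The factorisation -/

theorem Sm_eq (q : ℕ) : Sm q = algEquivAevalNegX (S q) := by
  unfold S Sm
  simp [map_sum, map_pow]

theorem irr_A {q : ℕ} (hq : q.Prime) (i : ℕ) : Irreducible (expand ℤ (q ^ i) (S q)) := by
  have : expand ℤ (q ^ i) (S q) = cyclotomic (q ^ (i + 1)) ℤ := by
    rw [cyclotomic_prime_pow_eq_geom_sum hq]
    unfold S
    simp [map_sum, map_pow]
  rw [this]
  exact cyclotomic.irreducible (pow_pos hq.pos _)

theorem irr_B {q : ℕ} (hq : q.Prime) (ho : Odd q) (i : ℕ) :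
    Irreducible (expand ℤ (q ^ i) (Sm q)) := by
  have : expand ℤ (q ^ i) (Sm q) = algEquivAevalNegX (expand ℤ (q ^ i) (S q)) := by
    unfold S Sm
    simp only [map_sum, map_pow, expand_X, map_neg]
    apply Finset.sum_congr rfl
    intro j _
    have : algEquivAevalNegX (X : ℤ[X]) = -X := by simp
    rw [this, Odd.neg_pow (ho.pow)]
  rw [this]
  exact (MulEquiv.irreducible_iff (algEquivAevalNegX (R := ℤ)).toMulEquiv).2 (irr_A hq i)

theorem factor (q : ℕ) (ho : Odd q) (b : ℕ) : (X : ℤ[X]) ^ (2 * q ^ b) - 1 =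
    (X - 1) * ((X + 1) * ∏ i ∈ range b, (expand ℤ (q ^ i) (S q) * expand ℤ (q ^ i) (Sm q))) := by
  have h1 : (X : ℤ[X]) ^ (q ^ b) - 1 = (X - 1) * ∏ i ∈ range b, expand ℤ (q ^ i) (S q) := by
    induction b with
    | zero => simp
    | succ b ih =>
      rw [Finset.prod_range_succ, ← mul_assoc, ← ih]
      have : S q * (X - 1) = X ^ q - 1 := by unfold S; exact geom_sum_mul _ _
      have := congrArg (expand ℤ (q ^ b)) this
      simp only [map_mul, map_sub, map_pow, expand_X, map_one] at this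
      rw [pow_succ, pow_mul, ← this]
      ring
  have h2 : (X : ℤ[X]) ^ (q ^ b) + 1 = (X + 1) * ∏ i ∈ range b, expand ℤ (q ^ i) (Sm q) := by
    clear h1
    induction b with
    | zero => simp
    | succ b ih =>
      rw [Finset.prod_range_succ, ← mul_assoc, ← ih]
      have : Sm q * (X + 1) = X ^ q + 1 := by
        have h : Sm q * (-X - 1) = (-X) ^ q - 1 := by unfold Sm; exact geom_sum_mul _ _
        rw [Odd.neg_pow ho] at h
        linear_combination -h
      have := congrArg (expand ℤ (q ^ b)) this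
      simp only [map_mul, map_add, map_pow, expand_X, map_one] at this
      rw [pow_succ, pow_mul, ← this]
      ring
  rw [Finset.prod_mul_distrib]
  have h3 : (X : ℤ[X]) ^ (2 * q ^ b) - 1 = (X ^ (q ^ b) - 1) * (X ^ (q ^ b) + 1) := by ring
  rw [h3, h1, h2]
  ring

theorem dvd_irr {p f : ℤ[X]} (hp : Irreducible p) (hf : f ∣ p) :
    Associated f 1 ∨ Associated f p := by
  obtain ⟨g, hg⟩ := hf
  rcases hp.isUnit_or_isUnit hg with h | h
  · left; exact associated_one_iff_isUnit.2 h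
  · right
    obtain ⟨u, hu⟩ := h
    exact ⟨u, by rw [hu, ← hg]⟩

theorem dvd_two {q : ℕ} (hq : q.Prime) (ho : Odd q) (i : ℕ) {f : ℤ[X]}
    (hf : f ∣ expand ℤ (q ^ i) (S q) * expand ℤ (q ^ i) (Sm q)) :
    ∃ h, Typ q h ∧ Associated f (expand ℤ (q ^ i) h) := by
  obtain ⟨f1, f2, h1, h2, rfl⟩ := exists_dvd_and_dvd_of_dvd_mul hf
  rcases dvd_irr (irr_A hq i) h1 with h1 | h1 <;> rcases dvd_irr (irr_B hq ho i) h2 with h2 | h2
  · exact ⟨1, Or.inl rfl, by simpa using h1.mul_mul h2⟩
  · exact ⟨Sm q, Or.inr (Or.inr (Or.inl rfl)), by simpa using h1.mul_mul h2⟩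
  · exact ⟨S q, Or.inr (Or.inl rfl), by simpa using h1.mul_mul h2⟩
  · exact ⟨S q * Sm q, Or.inr (Or.inr (Or.inr rfl)), by simpa using h1.mul_mul h2⟩

theorem dvd_prod {q : ℕ} (hq : q.Prime) (ho : Odd q) : ∀ (b : ℕ) (f : ℤ[X]),
    (f ∣ ∏ i ∈ range b, (expand ℤ (q ^ i) (S q) * expand ℤ (q ^ i) (Sm q))) →
    ∃ h : ℕ → ℤ[X], (∀ i, Typ q (h i)) ∧ Associated f (F q b h) := by
  intro b
  induction b with
  | zero =>
    intro f hf
    refine ⟨fun _ => 1, fun _ => Or.inl rfl, ?_⟩
    unfold F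
    simpa using associated_one_iff_isUnit.2 (isUnit_of_dvd_one (by simpa using hf))
  | succ b ih =>
    intro f hf
    rw [Finset.prod_range_succ] at hf
    obtain ⟨f1, f2, h1, h2, rfl⟩ := exists_dvd_and_dvd_of_dvd_mul hf
    obtain ⟨h, hh, ha⟩ := ih f1 h1
    obtain ⟨t, ht, hb⟩ := dvd_two hq ho b h2
    refine ⟨fun i => if i = b then t else h i, fun i => ?_, ?_⟩
    · by_cases hi : i = b
      · simpa [hi] using ht
      · simpa [hi] using hh i
    · unfold F at ha ⊢
      rw [Finset.prod_range_succ]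
      have e : ∏ i ∈ range b, expand ℤ (q ^ i) (if i = b then t else h i) =
          ∏ i ∈ range b, expand ℤ (q ^ i) (h i) := by
        apply Finset.prod_congr rfl
        intro i hi
        rw [if_neg (by rw [Finset.mem_range] at hi; omega)]
      rw [e]
      simp only [↓reduceIte]
      exact ha.mul_mul hb

theorem Small2.of_associated {f g : ℤ[X]} (h : Associated f g) (hg : Small2 g) : Small2 f := by
  obtain ⟨u, hu⟩ := h.symm
  obtain ⟨r, hr, hru⟩ := Polynomial.isUnit_iff.1 u.isUnit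
  intro n
  rw [← hu, ← hru, coeff_mul_C, abs_mul, Int.isUnit_iff_abs_eq.1 hr, mul_one]
  exact hg n

theorem coeff_X_pow_mul_le {f : ℤ[X]} (hf : Small f) (k n : ℕ) : |(X ^ k * f).coeff n| ≤ 1 := by
  rw [coeff_X_pow_mul']
  split_ifs
  · exact hf _
  · simp

theorem small2_cases {f a c : ℤ[X]} (hf : Small f) (ha : a = 1 ∨ a = X - 1)
    (hc : c = 1 ∨ c = X + 1) : Small2 (a * (c * f)) := by
  intro n
  have h0 := hf n
  have h1 := coeff_X_pow_mul_le hf 1 n
  have h2 := coeff_X_pow_mul_le hf 2 n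
  rw [abs_le] at h0 h1 h2
  rw [abs_le]
  rcases ha with rfl | rfl <;> rcases hc with rfl | rfl
  · rw [one_mul, one_mul]; constructor <;> linarith
  · have e : (1 : ℤ[X]) * ((X + 1) * f) = X ^ 1 * f + f := by ring
    rw [e, coeff_add]; constructor <;> linarith
  · have e : ((X : ℤ[X]) - 1) * (1 * f) = X ^ 1 * f - f := by ring
    rw [e, coeff_sub]; constructor <;> linarith
  · have e : ((X : ℤ[X]) - 1) * ((X + 1) * f) = X ^ 2 * f - f := by ring
    rw [e, coeff_sub]; constructor <;> linarith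

theorem height_le {f : ℤ[X]} (hf : Small2 f) : height f ≤ 2 := by
  unfold height
  apply Finset.sup_le
  intro k _
  have := hf k
  rw [Int.abs_eq_natAbs] at this
  omega

theorem le_height (f : ℤ[X]) (k : ℕ) : (f.coeff k).natAbs ≤ height f := by
  by_cases hk : k ∈ f.support
  · exact Finset.le_sup (f := fun k => (f.coeff k).natAbs) hk
  · rw [notMem_support_iff] at hk
    simp [hk]

theorem upper {q : ℕ} (hq : q.Prime) (ho : Odd q) (b : ℕ) {f : ℤ[X]}
    (hf : f ∣ X ^ (2 * q ^ b) - 1) : Small2 f := by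
  rw [factor q ho b] at hf
  obtain ⟨a, g, ha, hg, rfl⟩ := exists_dvd_and_dvd_of_dvd_mul hf
  obtain ⟨c, f, hc, hf', rfl⟩ := exists_dvd_and_dvd_of_dvd_mul hg
  obtain ⟨h, hh, hass⟩ := dvd_prod hq ho b f hf'
  have hp1 : Irreducible (X - 1 : ℤ[X]) := by
    have := (prime_X_sub_C (1 : ℤ)).irreducible
    simpa using this
  have hp2 : Irreducible (X + 1 : ℤ[X]) := by
    have := (prime_X_sub_C (-1 : ℤ)).irreducible
    simpa using this
  have ha' : ∃ a', (a' = 1 ∨ a' = X - 1) ∧ Associated a a' := by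
    rcases dvd_irr hp1 ha with h | h
    · exact ⟨1, Or.inl rfl, h⟩
    · exact ⟨_, Or.inr rfl, h⟩
  have hc' : ∃ c', (c' = 1 ∨ c' = X + 1) ∧ Associated c c' := by
    rcases dvd_irr hp2 hc with h | h
    · exact ⟨1, Or.inl rfl, h⟩
    · exact ⟨_, Or.inr rfl, h⟩
  obtain ⟨a', ha1, ha2⟩ := ha'
  obtain ⟨c', hc1, hc2⟩ := hc'
  obtain ⟨k, rfl⟩ := ho
  exact Small2.of_associated (ha2.mul_mul (hc2.mul_mul hass))
    (small2_cases (small_F k b h hh) ha1 hc1)

/-- **`B(2 q ^ b) = 2`**: for every odd prime `q` and every `b ≥ 1` the largest height of a divisor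
of `x ^ (2 q ^ b) - 1` in `ℤ[x]` is two. -/
theorem result : ∀ q b : ℕ, q.Prime → Odd q → 1 ≤ b →
    IsGreatest {h : ℕ | ∃ f : ℤ[X], f ∣ X ^ (2 * q ^ b) - 1 ∧ height f = h} 2 := by
  intro q b hq ho hb
  constructor
  · refine ⟨(X + 1) * S (q ^ b), ?_, ?_⟩
    · have h1 : S (q ^ b) * (X - 1) = X ^ (q ^ b) - 1 := by unfold S; exact geom_sum_mul _ _
      have h2 : (X + 1 : ℤ[X]) ∣ X ^ (q ^ b) + 1 := by
        have := Odd.add_dvd_pow_add_pow (X : ℤ[X]) 1 (ho.pow (n := b))
        simpa using this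
      have h3 : (X : ℤ[X]) ^ (2 * q ^ b) - 1 = (X ^ (q ^ b) + 1) * (X ^ (q ^ b) - 1) := by ring
      rw [h3]
      exact mul_dvd_mul h2 ⟨X - 1, h1.symm⟩
    · apply le_antisymm
      · apply height_le
        apply upper hq ho b
        have h1 : S (q ^ b) * (X - 1) = X ^ (q ^ b) - 1 := by unfold S; exact geom_sum_mul _ _
        have h2 : (X + 1 : ℤ[X]) ∣ X ^ (q ^ b) + 1 := by
          have := Odd.add_dvd_pow_add_pow (X : ℤ[X]) 1 (ho.pow (n := b))
          simpa using this
        have h3 : (X : ℤ[X]) ^ (2 * q ^ b) - 1 = (X ^ (q ^ b) + 1) * (X ^ (q ^ b) - 1) := by ring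
        rw [h3]
        exact mul_dvd_mul h2 ⟨X - 1, h1.symm⟩
      · have h := le_height ((X + 1) * S (q ^ b)) 1
        have hN : 1 < q ^ b := Nat.one_lt_pow (by omega) hq.one_lt
        have e : ((X + 1) * S (q ^ b)).coeff 1 = 2 := by
          rw [add_mul, one_mul, coeff_add, coeff_X_mul, coeff_S, coeff_S, if_pos (by omega),
            if_pos hN]
          norm_num
        rw [e] at h
        simpa using h
  · rintro h ⟨f, hf, rfl⟩
    exact height_le (upper hq ho b hf)

end Pool.Agent.Results.MP_0523aa_nt.HeightTwo
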